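import Pool.Agent.Lib.MP_9be8d1_co.Triples2
import Pool.Agent.Lib.MP_9be8d1_co.Few

/-!
Edge-maximal uniform hypergraphs with bounded dominated number (Frankl and Pach).

`sizes r s` is the set of all sizes of `r`-uniform hypergraphs with dominated number at most `s`,
so `f_r(s)` is its greatest element.
-/

namespace Pool.Agent.Results.MP_9be8d1_co.SteinerAndTriples

open Pool.Agent.Lib.MP_9be8d1_co

theorem result :
    -- the assertion on Steiner systems, for all r >= 2
    (∀ r s : ℕ, 2 ≤ r → (∃ C : Finset (Finset (Fin (s + r))), IsSteiner (s + r) r (r - 1) C) →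
      IsGreatest (sizes r s) ((s + r).choose r - (s + r).choose (r - 1) / r)) ∧
    -- the case r = 3, for all s
    (∀ s : ℕ, IsGreatest (sizes 3 s) (max ((s + 3 - 1).choose 3) ((s + 3).choose 3 - coverNum (s + 3) 3 2))) ∧
    -- for all r and s: the conjectured value is a lower bound, and an upper bound for hypergraphs
    -- with at most s + r + 1 vertices
    (∀ r s : ℕ, 1 ≤ r →
      max ((s + r - 1).choose r) ((s + r).choose r - coverNum (s + r) r (r - 1)) ∈ sizes r s ∧
      ∀ n : ℕ, n ≤ s + r + 1 → ∀ E : Finset (Finset (Fin n)), (∀ e ∈ E, e.card = r) → phi E ≤ s →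
        E.card ≤ max ((s + r - 1).choose r) ((s + r).choose r - coverNum (s + r) r (r - 1))) ∧
    -- a general upper bound for all r >= 2 and all s
    (∀ r s : ℕ, 2 ≤ r → ∀ m ∈ sizes r s,
      (s + 2).choose 2 * m ≤ (s + r).choose r * (s * (s + 2) / 2)) := by
  refine ⟨?_, ?_, ?_, ?_⟩
  · rintro r s hr ⟨C, hC⟩
    exact steiner_isGreatest hr C hC
  · intro s
    rw [max_eq (r := 3) (by omega)]
    exact three_isGreatest s
  · intro r s hr
    rw [max_eq hr]
    refine ⟨lower hr, fun n hn E hE hφ => ?_⟩
    have := few_fin hr hn E hE hφ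
    omega
  · rintro r s hr m ⟨n, E, hE, hφ, rfl⟩
    exact uniform_bound hr E hE ((phi_le_iff E s).mp hφ)

end Pool.Agent.Results.MP_9be8d1_co.SteinerAndTriples
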